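import Pool.Agent.Helper74.CO.Goals

/-!
# Packet CO-BUMP1 (MP_c5396e_co)
-/

set_option autoImplicit false

namespace Pool.Agent.Helper87.CO

open Pool.Agent.Helper74.CO Finset

/-- averages for three functions -/
lemma avg3 (hA : AVG) {ι : Type} (X : Finset ι) (a b c : ι → ℝ) (K Ka Kb Kc : ℕ) (κ a₀ b₀ c₀ : ℝ)
    (hκ : 0 ≤ κ) (ha : 1 ≤ Ka) (hb : 1 ≤ Kb) (hc : 1 ≤ Kc) (ha' : Ka ≤ K) (hb' : Kb ≤ K)
    (hc' : Kc ≤ K) (h : Eq3 X a b c K κ) :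
    |∑ x ∈ X, fw Ka (a x - a₀) * fw Kb (b x - b₀) * fw Kc (c x - c₀) -
      (#X : ℝ) / (Ka * Kb * Kc)| ≤ κ * #X := by
  apply hA ι X a b c Ka Kb Kc κ a₀ b₀ c₀ ha hb hc hκ
  intro j k l hj hk hl hn
  exact h j k l (by omega) (by omega) (by omega) hn

/-- averages for two functions -/
lemma avg2 (hF : FEJ) (hA : AVG) {ι : Type} (X : Finset ι) (c d : ι → ℝ) (K Kc Kd : ℕ)
    (κ c₀ d₀ : ℝ) (hκ : 0 ≤ κ) (hc : 1 ≤ Kc) (hd : 1 ≤ Kd) (hc' : Kc ≤ K) (hd' : Kd ≤ K)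
    (h : Eq2 X c d K κ) :
    |∑ x ∈ X, fw Kc (c x - c₀) * fw Kd (d x - d₀) - (#X : ℝ) / (Kc * Kd)| ≤ κ * #X := by
  have h1 := hA ι X c c d Kc 1 Kd κ c₀ 0 d₀ hc le_rfl hd hκ (by
    intro j k l hj hk hl hn
    have hk0 : k = 0 := by
      have : |k| < 1 := by simpa using hk
      exact Int.abs_lt_one_iff.mp this
    subst hk0
    have := h j l (by omega) (by omega) (by tauto)
    simpa using this)
  have h2 : ∀ x ∈ X, fw Kc (c x - c₀) * fw 1 (c x - 0) * fw Kd (d x - d₀) =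
      fw Kc (c x - c₀) * fw Kd (d x - d₀) := by
    intro x _
    rw [hF.2.2.2.2 (c x - 0), mul_one]
  rw [Finset.sum_congr rfl h2] at h1
  simpa using h1

/-- averages for the first and third of three functions -/
lemma avg13 (hF : FEJ) (hA : AVG) {ι : Type} (X : Finset ι) (a b c : ι → ℝ) (K Ka Kc : ℕ)
    (κ a₀ c₀ : ℝ) (hκ : 0 ≤ κ) (ha : 1 ≤ Ka) (hc : 1 ≤ Kc) (ha' : Ka ≤ K) (hc' : Kc ≤ K)
    (h : Eq3 X a b c K κ) :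
    |∑ x ∈ X, fw Ka (a x - a₀) * fw Kc (c x - c₀) - (#X : ℝ) / (Ka * Kc)| ≤ κ * #X := by
  apply avg2 hF hA X a c K Ka Kc κ a₀ c₀ hκ ha hc ha' hc'
  intro j l hj hl hn
  have h1 := h j 0 l hj (by simp; omega) hl (by tauto)
  simpa using h1

lemma avg23 (hF : FEJ) (hA : AVG) {ι : Type} (X : Finset ι) (a b c : ι → ℝ) (K Kb Kc : ℕ)
    (κ b₀ c₀ : ℝ) (hκ : 0 ≤ κ) (hb : 1 ≤ Kb) (hc : 1 ≤ Kc) (hb' : Kb ≤ K) (hc' : Kc ≤ K)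
    (h : Eq3 X a b c K κ) :
    |∑ x ∈ X, fw Kb (b x - b₀) * fw Kc (c x - c₀) - (#X : ℝ) / (Kb * Kc)| ≤ κ * #X := by
  apply avg2 hF hA X b c K Kb Kc κ b₀ c₀ hκ hb hc hb' hc'
  intro k l hk hl hn
  have h1 := h 0 k l (by simp; omega) hk hl (by tauto)
  simpa using h1

/-- the pointwise inequality -/
lemma point (hF : FEJ) (K₁ K₂ K₃ : ℕ) (ε τ₁ τ₃ : ℝ) (hK₁ : 1 ≤ K₁) (hK₂ : 1 ≤ K₂) (hK₃ : 1 ≤ K₃)
    (hε : 0 < ε) (hε' : ε < 1 / 2) (hε₂ : 3 * ε ≤ 1 / (6 * K₂))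
    (hτ₁ : 1 / (2 * K₁ * (1 / 10 : ℝ)) ^ 2 ≤ τ₁) (hτ₃ : 1 / (2 * K₃ * ε) ^ 2 ≤ τ₃) (hτ₃' : 0 ≤ τ₃)
    (a b c d u v a₀ c₀ : ℝ) (ha₀ : a₀ = (u + 1 / 2) / 2)
    (hc₀ : c₀ = max ε (min v (1 - ε)))
    (hu : -(3 / 10) ≤ u) (hu' : u ≤ 13 / 10) (hv : -ε ≤ v) (hv' : v ≤ 1 + ε)
    (ha : 0 ≤ a ∧ a < 1) (hb : 0 ≤ b ∧ b < 1) (hc : 0 ≤ c ∧ c < 1) (hd : 0 ≤ d ∧ d < 1) :
    fw K₃ (c - c₀) * (fw K₁ (a - a₀) * fw K₁ (b - a₀) - τ₁ * fw K₁ (a - a₀)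
      - τ₁ * fw K₁ (b - a₀) - 4 * fw K₂ d) ≤
      (if (0 ≤ a + b - u ∧ a + b - u < 1) ∧ (0 ≤ c + d - v ∧ c + d - v < 1) then (1 : ℝ) else 0)
        + τ₃ := by
  obtain ⟨hb01, hper, htail, hnear, -⟩ := hF
  have hα := hb01 K₁ (a - a₀)
  have hβ := hb01 K₁ (b - a₀)
  have hγ := hb01 K₃ (c - c₀)
  have hδ := hb01 K₂ d
  set α := fw K₁ (a - a₀) with hαd
  set β := fw K₁ (b - a₀) with hβd
  set γ := fw K₃ (c - c₀) with hγd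
  set δ := fw K₂ d with hδd
  have hτ₁0 : 0 ≤ τ₁ := le_trans (by positivity) hτ₁
  have hif : (0 : ℝ) ≤ (if (0 ≤ a + b - u ∧ a + b - u < 1) ∧ (0 ≤ c + d - v ∧ c + d - v < 1)
      then (1 : ℝ) else 0) := by split_ifs <;> norm_num
  have hbr1 : α * β - τ₁ * α - τ₁ * β - 4 * δ ≤ 1 := by nlinarith [mul_nonneg hτ₁0 hα.1, mul_nonneg hτ₁0 hβ.1]
  -- if the bracket is nonpositive we are done
  have hneg : α * β - τ₁ * α - τ₁ * β - 4 * δ ≤ 0 → γ * (α * β - τ₁ * α - τ₁ * β - 4 * δ) ≤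
      (if (0 ≤ a + b - u ∧ a + b - u < 1) ∧ (0 ≤ c + d - v ∧ c + d - v < 1)
      then (1 : ℝ) else 0) + τ₃ := by
    intro h
    have := mul_nonpos_of_nonneg_of_nonpos hγ.1 h
    linarith
  have ha₀1 : 1 / 10 ≤ a₀ := by rw [ha₀]; linarith
  have ha₀2 : a₀ ≤ 9 / 10 := by rw [ha₀]; linarith
  by_cases h1 : 1 / 10 ≤ |a - a₀|
  · have h2 : |a - a₀| ≤ 1 - 1 / 10 := by
      rw [abs_le]; constructor <;> linarith [ha.1, ha.2]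
    have h3 : α ≤ τ₁ := le_trans (htail K₁ (1 / 10) (a - a₀) hK₁ (by norm_num) h1 h2) hτ₁
    apply hneg
    nlinarith [mul_nonneg hτ₁0 hα.1, mul_le_mul_of_nonneg_right h3 hβ.1]
  by_cases h1' : 1 / 10 ≤ |b - a₀|
  · have h2 : |b - a₀| ≤ 1 - 1 / 10 := by
      rw [abs_le]; constructor <;> linarith [hb.1, hb.2]
    have h3 : β ≤ τ₁ := le_trans (htail K₁ (1 / 10) (b - a₀) hK₁ (by norm_num) h1' h2) hτ₁
    apply hneg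
    nlinarith [mul_nonneg hτ₁0 hβ.1, mul_le_mul_of_nonneg_left h3 hα.1]
  push Not at h1 h1'
  have hc₀1 : ε ≤ c₀ := by rw [hc₀]; exact le_max_left _ _
  have hc₀2 : c₀ ≤ 1 - ε := by
    rw [hc₀]; apply max_le (by linarith) (min_le_right _ _)
  by_cases h4 : ε ≤ |c - c₀|
  · have h5 : |c - c₀| ≤ 1 - ε := by
      rw [abs_le]; constructor <;> linarith [hc.1, hc.2]
    have h6 : γ ≤ τ₃ := le_trans (htail K₃ ε (c - c₀) hK₃ hε h4 h5) hτ₃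
    have h7 : γ * (α * β - τ₁ * α - τ₁ * β - 4 * δ) ≤ γ * 1 :=
      mul_le_mul_of_nonneg_left hbr1 hγ.1
    linarith
  push Not at h4
  have hcv : |c₀ - v| ≤ 2 * ε := by
    rw [hc₀, abs_le]
    rcases le_total v (1 - ε) with h | h
    · rw [min_eq_left h]
      rcases le_total ε v with h' | h'
      · rw [max_eq_right h']; constructor <;> linarith
      · rw [max_eq_left h']; constructor <;> linarith
    · rw [min_eq_right h, max_eq_right (by linarith)]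
      constructor <;> linarith
  rw [abs_lt] at h1 h1' h4
  rw [abs_le] at hcv
  by_cases h8 : 0 ≤ c + d - v ∧ c + d - v < 1
  · rw [if_pos ⟨⟨by linarith, by linarith⟩, h8⟩]
    have h7 : γ * (α * β - τ₁ * α - τ₁ * β - 4 * δ) ≤ γ * 1 :=
      mul_le_mul_of_nonneg_left hbr1 hγ.1
    linarith [hγ.2]
  · apply hneg
    have h9 : 1 / 4 ≤ δ := by
      rw [not_and_or] at h8
      push Not at h8
      rcases h8 with h8 | h8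
      · apply hnear K₂ d hK₂
        rw [abs_le]; constructor <;> linarith
      · have h10 : fw K₂ d = fw K₂ (d - 1) := by
          have := hper K₂ (d - 1) 1
          rw [← this]; congr 1; push_cast; ring
        rw [hδd, h10]
        apply hnear K₂ (d - 1) hK₂
        rw [abs_le]; constructor <;> linarith
    nlinarith [mul_nonneg hτ₁0 hα.1, mul_nonneg hτ₁0 hβ.1]

/-- general form with the constants as hypotheses -/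
lemma core (hF : FEJ) (hA : AVG) (K₁ K₂ K₃ : ℕ) (κ η ε τ₁ τ₃ : ℝ) (hK₁ : 1 ≤ K₁) (hK₂ : 1 ≤ K₂)
    (hK₃ : 1 ≤ K₃) (hK₁₃ : K₁ ≤ K₃) (hK₂₃ : K₂ ≤ K₃) (hκ : 0 ≤ κ)
    (hε : 0 < ε) (hε' : ε < 1 / 2) (hε₂ : 3 * ε ≤ 1 / (6 * K₂))
    (hτ₁ : 1 / (2 * K₁ * (1 / 10 : ℝ)) ^ 2 ≤ τ₁) (hτ₃ : 1 / (2 * K₃ * ε) ^ 2 ≤ τ₃) (hτ₃' : 0 ≤ τ₃)
    (hfin : η ≤ (1 / (K₁ * K₁ * K₃ : ℝ) - κ) - 2 * τ₁ * (1 / (K₁ * K₃ : ℝ) + κ)
      - 4 * (1 / (K₃ * K₂ : ℝ) + κ) - τ₃) : Bump1 K₃ κ η ε := by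
  intro ι X a b c d u v ha hb hc hd h3 h2 hu hu' hv hv'
  classical
  have hτ₁0 : 0 ≤ τ₁ := le_trans (by positivity) hτ₁
  set a₀ := (u + 1 / 2) / 2 with ha₀
  set c₀ := max ε (min v (1 - ε)) with hc₀
  have e1 := avg3 hA X a b c K₃ K₁ K₁ K₃ κ a₀ a₀ c₀ hκ hK₁ hK₁ hK₃ hK₁₃ hK₁₃ le_rfl h3
  have e2 := avg13 hF hA X a b c K₃ K₁ K₃ κ a₀ c₀ hκ hK₁ hK₃ hK₁₃ le_rfl h3
  have e3 := avg23 hF hA X a b c K₃ K₁ K₃ κ a₀ c₀ hκ hK₁ hK₃ hK₁₃ le_rfl h3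
  have e4 := avg2 hF hA X c d K₃ K₃ K₂ κ c₀ 0 hκ hK₃ hK₂ le_rfl hK₂₃ h2
  have hp : ∑ x ∈ X, fw K₃ (c x - c₀) * (fw K₁ (a x - a₀) * fw K₁ (b x - a₀)
      - τ₁ * fw K₁ (a x - a₀) - τ₁ * fw K₁ (b x - a₀) - 4 * fw K₂ (d x)) ≤
      ∑ x ∈ X, ((if (0 ≤ a x + b x - u ∧ a x + b x - u < 1) ∧
        (0 ≤ c x + d x - v ∧ c x + d x - v < 1) then (1 : ℝ) else 0) + τ₃) := by
    apply Finset.sum_le_sum
    intro x hx
    exact point hF K₁ K₂ K₃ ε τ₁ τ₃ hK₁ hK₂ hK₃ hε hε' hε₂ hτ₁ hτ₃ hτ₃' (a x) (b x) (c x) (d x) u v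
      a₀ c₀ ha₀ hc₀ hu hu' hv hv' (ha x hx) (hb x hx) (hc x hx) (hd x hx)
  rw [Finset.sum_add_distrib, Finset.sum_boole, Finset.sum_const, nsmul_eq_mul] at hp
  have hl : ∑ x ∈ X, fw K₃ (c x - c₀) * (fw K₁ (a x - a₀) * fw K₁ (b x - a₀)
      - τ₁ * fw K₁ (a x - a₀) - τ₁ * fw K₁ (b x - a₀) - 4 * fw K₂ (d x)) =
      ∑ x ∈ X, fw K₁ (a x - a₀) * fw K₁ (b x - a₀) * fw K₃ (c x - c₀)
      - τ₁ * ∑ x ∈ X, fw K₁ (a x - a₀) * fw K₃ (c x - c₀)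
      - τ₁ * ∑ x ∈ X, fw K₁ (b x - a₀) * fw K₃ (c x - c₀)
      - 4 * ∑ x ∈ X, fw K₃ (c x - c₀) * fw K₂ (d x - 0) := by
    rw [Finset.mul_sum, Finset.mul_sum, Finset.mul_sum, ← Finset.sum_sub_distrib,
      ← Finset.sum_sub_distrib, ← Finset.sum_sub_distrib]
    apply Finset.sum_congr rfl
    intro x _
    rw [sub_zero]; ring
  rw [hl] at hp
  rw [abs_le] at e1 e2 e3 e4
  have hN : (0 : ℝ) ≤ #X := Nat.cast_nonneg _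
  have f1 : (#X : ℝ) / (K₁ * K₁ * K₃) = #X * (1 / (K₁ * K₁ * K₃ : ℝ)) := by ring
  have f2 : (#X : ℝ) / (K₁ * K₃) = #X * (1 / (K₁ * K₃ : ℝ)) := by ring
  have f4 : (#X : ℝ) / (K₃ * K₂) = #X * (1 / (K₃ * K₂ : ℝ)) := by ring
  rw [f1] at e1
  rw [f2] at e2 e3
  rw [f4] at e4
  have g2 := mul_le_mul_of_nonneg_left e2.2 hτ₁0
  have g3 := mul_le_mul_of_nonneg_left e3.2 hτ₁0
  have hfin' := mul_le_mul_of_nonneg_right hfin hN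
  have key : η * (#X : ℝ) ≤ (#(X.filter (fun x => (0 ≤ a x + b x - u ∧ a x + b x - u < 1) ∧
      (0 ≤ c x + d x - v ∧ c x + d x - v < 1))) : ℝ) := by
    nlinarith [e1.1, e4.2, g2, g3, hfin', hp]
  exact_mod_cast key

/-- **BUMP1** -/
theorem t_BUMP1 (hF : FEJ) (hA : AVG) : Pool.Agent.Helper74.CO.BUMP1 := by
  refine ⟨23887872000000000000, 1 / (64 * 40000 * 23887872000000000000),
    1 / (8 * 40000 * 23887872000000000000), 1 / 17280000, by norm_num, by norm_num, by norm_num, ?_⟩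
  apply core hF hA 200 960000 23887872000000000000 _ _ _ (1 / 1600)
    (1 / (8 * 40000 * 23887872000000000000)) <;> norm_num

end Pool.Agent.Helper87.CO
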